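import Mathlib
import Pool.Agent.H.MP_5bed1d_al.Defs

namespace Pool.Agent.Results.MP_5bed1d_al.Zero

open Pool.Agent.H.MP_5bed1d_al.Defs

theorem result (X Y : Set Alg) (hX : IsVar X) (hY : IsVar Y) (hX' : X ⊆ IZ) (hY' : Y ⊆ IZ)
    (h1 : ¬ ZM ⊆ X) (h2 : ¬ ZM ⊆ Y) : ¬ ZM ⊆ join X Y := by
  intro h
  have := mem_join.1 (h Z2_mem) (.imp (.imp (.var 0) .zero) .zero) (.var 0)
    (fun N hN v => inv hX hX' h1 N hN _) (fun N hN v => inv hY hY' h2 N hN _) (fun _ => true)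
  exact Bool.false_ne_true this

end Pool.Agent.Results.MP_5bed1d_al.Zero
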